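import Pool.Agent.W229.HD.Stm

/-! Project HD, part CSM. -/

set_option autoImplicit false

open Finset

namespace Pool.Agent.W585.HD

open Pool.Agent.W229.HD

lemma nm_eq (k : K3) : nm k = ‖(WithLp.toLp 2 (fun j => (k j : ℝ)) : EuclideanSpace ℝ (Fin 3))‖ := by
  rw [EuclideanSpace.norm_eq]
  unfold nm
  congr 1
  apply Finset.sum_congr rfl
  intro j _
  rw [Real.norm_eq_abs, sq_abs]

lemma nm_nonneg (k : K3) : 0 ≤ nm k := Real.sqrt_nonneg _

lemma nm_neg (k : K3) : nm (-k) = nm k := by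
  unfold nm
  simp

lemma nm_add (k l : K3) : nm (k + l) ≤ nm k + nm l := by
  rw [nm_eq, nm_eq, nm_eq]
  refine le_trans (le_of_eq ?_) (norm_add_le _ _)
  congr 1
  ext j
  simp

lemma one_le_nm {k : K3} (h : k ≠ 0) : 1 ≤ nm k := by
  obtain ⟨j, hj⟩ : ∃ j, k j ≠ 0 := by
    by_contra hc
    push Not at hc
    exact h (funext hc)
  unfold nm
  rw [Real.one_le_sqrt]
  have h1 : (1 : ℝ) ≤ (k j : ℝ) ^ 2 := by
    have h2 : (1 : ℤ) ≤ (k j) ^ 2 := by
      have := Int.one_le_abs hj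
      nlinarith [sq_abs (k j)]
    exact_mod_cast h2
  exact h1.trans (Finset.single_le_sum (f := fun j => (k j : ℝ) ^ 2) (fun i _ => sq_nonneg _)
    (Finset.mem_univ j))

/-- reindexing by an injective map -/
lemma sum_shift {S : Finset K3} {ψ : K3 → ℝ} (h0 : ∀ k, 0 ≤ ψ k) (h1 : ∀ k, k ∉ S → ψ k = 0)
    {e : K3 → K3} (he : Function.Injective e) : ∑ p ∈ S, ψ (e p) ≤ ∑ k ∈ S, ψ k := by
  classical
  rw [← Finset.sum_image (f := ψ) (g := e) (fun x _ y _ hxy => he hxy)]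
  rw [← Finset.sum_filter_of_ne (s := S.image e) (p := fun k => k ∈ S) (fun k _ hk => by
    by_contra hc
    exact hk (h1 k hc))]
  apply Finset.sum_le_sum_of_subset_of_nonneg
  · intro k hk
    exact (Finset.mem_filter.1 hk).2
  · intro k _ _
    exact h0 k

open Classical in
/-- the summand for the pairs `(l, p)`, `l` short -/
noncomputable def GG (m : ℕ) (f : K3 → ℝ) (l p : K3) : ℝ :=
  if nm l ≤ nm p ∧ nm l ≤ nm (p + l) then nm l * nm p ^ (2 * m) * (f l * f p * f (p + l)) else 0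

lemma GG_nonneg (m : ℕ) {f : K3 → ℝ} (hf : ∀ k, 0 ≤ f k) (l p : K3) : 0 ≤ GG m f l p := by
  unfold GG
  split_ifs
  · have := nm_nonneg l
    have := nm_nonneg p
    have h1 := hf l
    have h2 := hf p
    have h3 := hf (p + l)
    positivity
  · exact le_rfl

lemma step1 (m : ℕ) {f : K3 → ℝ} (hf : ∀ k, 0 ≤ f k) (hev : ∀ k, f (-k) = f k) (x y : K3) :
    lo x y * hi x y ^ (2 * m) * (f x * f y * f (x + y)) ≤
      4 ^ m * (GG m f x y + GG m f y x + GG m f (-(x + y)) x) := by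
  have n1 := nm_nonneg x
  have n2 := nm_nonneg y
  have n3 := nm_nonneg (x + y)
  have f1 := hf x
  have f2 := hf y
  have f3 := hf (x + y)
  have g1 := GG_nonneg m hf x y
  have g2 := GG_nonneg m hf y x
  have g3 := GG_nonneg m hf (-(x + y)) x
  have t1 := nm_add x y
  have t2 : nm y ≤ nm (x + y) + nm x := by
    have h := nm_add (x + y) (-x)
    rw [nm_neg, show x + y + -x = y by abel] at h
    exact h
  have t3 : nm x ≤ nm (x + y) + nm y := by
    have h := nm_add (x + y) (-y)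
    rw [nm_neg, show x + y + -y = x by abel] at h
    exact h
  have hF : 0 ≤ f x * f y * f (x + y) := by positivity
  have h4 : (4 : ℝ) ^ m = 2 ^ (2 * m) := by rw [pow_mul]; norm_num
  have hhi : 0 ≤ hi x y := le_max_of_le_left n1
  have hlo : 0 ≤ lo x y := le_min n1 (le_min n2 n3)
  rcases le_total (nm x) (nm y) with a | a
  · rcases le_total (nm x) (nm (x + y)) with b | b
    · -- x smallest
      have e1 : GG m f x y = nm x * nm y ^ (2 * m) * (f x * f y * f (x + y)) := by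
        unfold GG
        rw [if_pos ⟨a, by rwa [add_comm]⟩, add_comm y x]
      have e2 : lo x y = nm x := by
        unfold lo
        exact min_eq_left (le_min a b)
      have e3 : hi x y ≤ 2 * nm y := by
        unfold hi
        exact max_le (by linarith) (max_le (by linarith) (by linarith))
      calc lo x y * hi x y ^ (2 * m) * (f x * f y * f (x + y))
          ≤ nm x * (2 * nm y) ^ (2 * m) * (f x * f y * f (x + y)) := by
            rw [e2]
            apply mul_le_mul_of_nonneg_right _ hF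
            exact mul_le_mul_of_nonneg_left (pow_le_pow_left₀ hhi e3 _) n1
        _ = 4 ^ m * GG m f x y := by rw [e1, mul_pow, h4]; ring
        _ ≤ _ := by
            apply mul_le_mul_of_nonneg_left _ (by positivity)
            linarith
    · -- x + y smallest
      have e1 : GG m f (-(x + y)) x = nm (x + y) * nm x ^ (2 * m) * (f x * f y * f (x + y)) := by
        unfold GG
        rw [show x + -(x + y) = -y by abel, nm_neg, nm_neg, if_pos ⟨b, b.trans a⟩, hev, hev]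
        ring
      have e2 : lo x y = nm (x + y) := by
        unfold lo
        rw [min_eq_right (b.trans a), min_eq_right b]
      have e3 : hi x y ≤ 2 * nm x := by
        unfold hi
        exact max_le (by linarith) (max_le (by linarith) (by linarith))
      calc lo x y * hi x y ^ (2 * m) * (f x * f y * f (x + y))
          ≤ nm (x + y) * (2 * nm x) ^ (2 * m) * (f x * f y * f (x + y)) := by
            rw [e2]
            apply mul_le_mul_of_nonneg_right _ hF
            exact mul_le_mul_of_nonneg_left (pow_le_pow_left₀ hhi e3 _) n3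
        _ = 4 ^ m * GG m f (-(x + y)) x := by rw [e1, mul_pow, h4]; ring
        _ ≤ _ := by
            apply mul_le_mul_of_nonneg_left _ (by positivity)
            linarith
  · rcases le_total (nm y) (nm (x + y)) with b | b
    · -- y smallest
      have e1 : GG m f y x = nm y * nm x ^ (2 * m) * (f x * f y * f (x + y)) := by
        unfold GG
        rw [if_pos ⟨a, b⟩]
        ring
      have e2 : lo x y = nm y := by
        unfold lo
        rw [min_eq_left b, min_eq_right a]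
      have e3 : hi x y ≤ 2 * nm x := by
        unfold hi
        exact max_le (by linarith) (max_le (by linarith) (by linarith))
      calc lo x y * hi x y ^ (2 * m) * (f x * f y * f (x + y))
          ≤ nm y * (2 * nm x) ^ (2 * m) * (f x * f y * f (x + y)) := by
            rw [e2]
            apply mul_le_mul_of_nonneg_right _ hF
            exact mul_le_mul_of_nonneg_left (pow_le_pow_left₀ hhi e3 _) n2
        _ = 4 ^ m * GG m f y x := by rw [e1, mul_pow, h4]; ring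
        _ ≤ _ := by
            apply mul_le_mul_of_nonneg_left _ (by positivity)
            linarith
    · -- x + y smallest
      have e1 : GG m f (-(x + y)) x = nm (x + y) * nm x ^ (2 * m) * (f x * f y * f (x + y)) := by
        unfold GG
        rw [show x + -(x + y) = -y by abel, nm_neg, nm_neg, if_pos ⟨b.trans a, b⟩, hev, hev]
        ring
      have e2 : lo x y = nm (x + y) := by
        unfold lo
        rw [min_eq_right b, min_eq_right (b.trans a)]
      have e3 : hi x y ≤ 2 * nm x := by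
        unfold hi
        exact max_le (by linarith) (max_le (by linarith) (by linarith))
      calc lo x y * hi x y ^ (2 * m) * (f x * f y * f (x + y))
          ≤ nm (x + y) * (2 * nm x) ^ (2 * m) * (f x * f y * f (x + y)) := by
            rw [e2]
            apply mul_le_mul_of_nonneg_right _ hF
            exact mul_le_mul_of_nonneg_left (pow_le_pow_left₀ hhi e3 _) n3
        _ = 4 ^ m * GG m f (-(x + y)) x := by rw [e1, mul_pow, h4]; ring
        _ ≤ _ := by
            apply mul_le_mul_of_nonneg_left _ (by positivity)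
            linarith

lemma step2 (m : ℕ) {S : Finset K3} {f : K3 → ℝ} (hf : ∀ k, 0 ≤ f k) (hs : ∀ k, k ∉ S → f k = 0) :
    ∑ x ∈ S, ∑ y ∈ S, GG m f (-(x + y)) x ≤ ∑ p ∈ S, ∑ l ∈ S, GG m f l p := by
  apply Finset.sum_le_sum
  intro x _
  apply sum_shift (ψ := fun l => GG m f l x) (e := fun y => -(x + y))
  · intro k
    exact GG_nonneg m hf _ _
  · intro k hk
    unfold GG
    rw [hs k hk]
    split_ifs <;> ring
  · intro y y' h
    have h1 : x + y = x + y' := neg_injective h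
    exact add_left_cancel h1

open Classical in
/-- the short frequencies for `p` -/
noncomputable def Fp (S : Finset K3) (p : K3) : Finset K3 :=
  S.filter (fun l => nm l ≤ nm p ∧ nm l ≤ nm (p + l))

lemma inner_cs {S : Finset K3} {C0 : ℝ} (hC0 : 0 ≤ C0)
    (hL : ∀ (F : Finset K3) (R : ℝ), 1 ≤ R → (∀ l ∈ F, l ≠ 0 ∧ nm l ≤ R) →
      ∑ l ∈ F, (nm l)⁻¹ ≤ C0 * R ^ 2) (hS : (0 : K3) ∉ S) (f : K3 → ℝ) {p : K3} (hp : p ∈ S) :
    ∑ l ∈ Fp S p, nm l * (f l * f (p + l)) ≤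
      Real.sqrt C0 * nm p * Real.sqrt (∑ l ∈ Fp S p, nm l ^ 3 * (f l * f (p + l)) ^ 2) := by
  have hne : ∀ k ∈ S, k ≠ 0 := fun k hk h => hS (h ▸ hk)
  have hp1 := one_le_nm (hne p hp)
  have hmem : ∀ l ∈ Fp S p, l ∈ S ∧ nm l ≤ nm p := fun l hl =>
    ⟨(Finset.mem_filter.1 hl).1, (Finset.mem_filter.1 hl).2.1⟩
  have hcs := Real.sum_mul_le_sqrt_mul_sqrt (Fp S p) (fun l => (Real.sqrt (nm l))⁻¹)
    (fun l => Real.sqrt (nm l) ^ 3 * (f l * f (p + l)))
  have e1 : ∑ l ∈ Fp S p, (Real.sqrt (nm l))⁻¹ * (Real.sqrt (nm l) ^ 3 * (f l * f (p + l)))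
      = ∑ l ∈ Fp S p, nm l * (f l * f (p + l)) := by
    apply Finset.sum_congr rfl
    intro l hl
    have h1 := one_le_nm (hne l (hmem l hl).1)
    have h2 : 0 < Real.sqrt (nm l) := Real.sqrt_pos.2 (by linarith)
    have h3 : Real.sqrt (nm l) ^ 2 = nm l := Real.sq_sqrt (by linarith)
    calc (Real.sqrt (nm l))⁻¹ * (Real.sqrt (nm l) ^ 3 * (f l * f (p + l)))
        = Real.sqrt (nm l) ^ 2 * (f l * f (p + l)) := by field_simp
      _ = _ := by rw [h3]
  have e2 : ∑ l ∈ Fp S p, (Real.sqrt (nm l))⁻¹ ^ 2 ≤ C0 * nm p ^ 2 := by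
    have e3 : ∑ l ∈ Fp S p, (Real.sqrt (nm l))⁻¹ ^ 2 = ∑ l ∈ Fp S p, (nm l)⁻¹ := by
      apply Finset.sum_congr rfl
      intro l hl
      rw [inv_pow, Real.sq_sqrt (nm_nonneg l)]
    rw [e3]
    exact hL _ _ hp1 (fun l hl => ⟨hne l (hmem l hl).1, (hmem l hl).2⟩)
  have e4 : ∑ l ∈ Fp S p, (Real.sqrt (nm l) ^ 3 * (f l * f (p + l))) ^ 2
      = ∑ l ∈ Fp S p, nm l ^ 3 * (f l * f (p + l)) ^ 2 := by
    apply Finset.sum_congr rfl
    intro l hl
    have h3 : Real.sqrt (nm l) ^ 2 = nm l := Real.sq_sqrt (nm_nonneg l)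
    rw [mul_pow, ← pow_mul, show 3 * 2 = 2 * 3 by norm_num, pow_mul, h3]
  rw [e1, e4] at hcs
  refine hcs.trans ?_
  apply mul_le_mul_of_nonneg_right _ (Real.sqrt_nonneg _)
  calc Real.sqrt (∑ l ∈ Fp S p, (Real.sqrt (nm l))⁻¹ ^ 2) ≤ Real.sqrt (C0 * nm p ^ 2) :=
        Real.sqrt_le_sqrt e2
    _ = Real.sqrt C0 * nm p := by
        rw [Real.sqrt_mul hC0, Real.sqrt_sq (nm_nonneg p)]

lemma step3 (m : ℕ) {S : Finset K3} {C0 : ℝ} (hC0 : 0 ≤ C0)
    (hL : ∀ (F : Finset K3) (R : ℝ), 1 ≤ R → (∀ l ∈ F, l ≠ 0 ∧ nm l ≤ R) →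
      ∑ l ∈ F, (nm l)⁻¹ ≤ C0 * R ^ 2) (hS : (0 : K3) ∉ S) {f : K3 → ℝ} (hf : ∀ k, 0 ≤ f k)
    (hs : ∀ k, k ∉ S → f k = 0) :
    ∑ p ∈ S, ∑ l ∈ S, GG m f l p ≤ Real.sqrt C0 * (Real.sqrt (∑ k ∈ S, nm k ^ (2 * m + 2) * f k ^ 2) *
      Real.sqrt (4 ^ m * ((∑ k ∈ S, nm k ^ 3 * f k ^ 2) * ∑ k ∈ S, nm k ^ (2 * m) * f k ^ 2))) := by
  classical
  have a1 : ∀ p ∈ S, ∑ l ∈ S, GG m f l p ≤ Real.sqrt C0 * ((nm p ^ (m + 1) * f p) *
      (nm p ^ m * Real.sqrt (∑ l ∈ Fp S p, nm l ^ 3 * (f l * f (p + l)) ^ 2))) := by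
    intro p hp
    have b1 : ∑ l ∈ S, GG m f l p = nm p ^ (2 * m) * f p * ∑ l ∈ Fp S p, nm l * (f l * f (p + l)) := by
      unfold GG Fp
      rw [← Finset.sum_filter, Finset.mul_sum]
      apply Finset.sum_congr rfl
      intro l _
      ring
    have b2 := inner_cs hC0 hL hS f hp
    have b3 : 0 ≤ nm p ^ (2 * m) * f p := mul_nonneg (pow_nonneg (nm_nonneg p) _) (hf p)
    rw [b1]
    refine (mul_le_mul_of_nonneg_left b2 b3).trans (le_of_eq ?_)
    ring
  refine (Finset.sum_le_sum a1).trans ?_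
  rw [← Finset.mul_sum]
  apply mul_le_mul_of_nonneg_left _ (Real.sqrt_nonneg _)
  have hcs := Real.sum_mul_le_sqrt_mul_sqrt S (fun p => nm p ^ (m + 1) * f p)
    (fun p => nm p ^ m * Real.sqrt (∑ l ∈ Fp S p, nm l ^ 3 * (f l * f (p + l)) ^ 2))
  refine hcs.trans ?_
  have c1 : ∑ p ∈ S, (nm p ^ (m + 1) * f p) ^ 2 = ∑ k ∈ S, nm k ^ (2 * m + 2) * f k ^ 2 := by
    apply Finset.sum_congr rfl
    intro p _
    ring
  rw [c1]
  apply mul_le_mul_of_nonneg_left _ (Real.sqrt_nonneg _)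
  apply Real.sqrt_le_sqrt
  -- second factor
  have c2 : ∀ p ∈ S, (nm p ^ m * Real.sqrt (∑ l ∈ Fp S p, nm l ^ 3 * (f l * f (p + l)) ^ 2)) ^ 2 ≤
      ∑ l ∈ S, 4 ^ m * (nm l ^ 3 * f l ^ 2 * (nm (p + l) ^ (2 * m) * f (p + l) ^ 2)) := by
    intro p _
    have hnn : 0 ≤ ∑ l ∈ Fp S p, nm l ^ 3 * (f l * f (p + l)) ^ 2 :=
      Finset.sum_nonneg (fun l _ => mul_nonneg (pow_nonneg (nm_nonneg l) _) (sq_nonneg _))
    rw [mul_pow, Real.sq_sqrt hnn, Finset.mul_sum]
    have d1 : ∑ l ∈ Fp S p, (nm p ^ m) ^ 2 * (nm l ^ 3 * (f l * f (p + l)) ^ 2) ≤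
        ∑ l ∈ Fp S p, 4 ^ m * (nm l ^ 3 * f l ^ 2 * (nm (p + l) ^ (2 * m) * f (p + l) ^ 2)) := by
      apply Finset.sum_le_sum
      intro l hl
      have hl2 := (Finset.mem_filter.1 hl).2.2
      have t : nm p ≤ 2 * nm (p + l) := by
        have h := nm_add (p + l) (-l)
        rw [nm_neg, show p + l + -l = p by abel] at h
        linarith
      have t2 : (nm p ^ m) ^ 2 ≤ 4 ^ m * nm (p + l) ^ (2 * m) := by
        calc (nm p ^ m) ^ 2 = nm p ^ (2 * m) := by rw [← pow_mul, mul_comm]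
          _ ≤ (2 * nm (p + l)) ^ (2 * m) := pow_le_pow_left₀ (nm_nonneg p) t _
          _ = 4 ^ m * nm (p + l) ^ (2 * m) := by
              rw [mul_pow, pow_mul 2 2 m]
              norm_num
      have t3 : 0 ≤ nm l ^ 3 * (f l * f (p + l)) ^ 2 :=
        mul_nonneg (pow_nonneg (nm_nonneg l) _) (sq_nonneg _)
      calc (nm p ^ m) ^ 2 * (nm l ^ 3 * (f l * f (p + l)) ^ 2)
          ≤ 4 ^ m * nm (p + l) ^ (2 * m) * (nm l ^ 3 * (f l * f (p + l)) ^ 2) :=
            mul_le_mul_of_nonneg_right t2 t3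
        _ = _ := by ring
    refine d1.trans (Finset.sum_le_sum_of_subset_of_nonneg (Finset.filter_subset _ _) ?_)
    intro l _ _
    have := nm_nonneg l
    have := nm_nonneg (p + l)
    positivity
  refine (Finset.sum_le_sum c2).trans ?_
  rw [Finset.sum_comm, Finset.sum_mul, Finset.mul_sum]
  apply Finset.sum_le_sum
  intro l _
  rw [← Finset.mul_sum, ← Finset.mul_sum]
  apply mul_le_mul_of_nonneg_left _ (by positivity)
  have n1 := nm_nonneg l
  apply mul_le_mul_of_nonneg_left _ (by positivity)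
  apply sum_shift (ψ := fun k => nm k ^ (2 * m) * f k ^ 2) (e := fun p => p + l)
  · intro k
    exact mul_nonneg (pow_nonneg (nm_nonneg k) _) (sq_nonneg _)
  · intro k hk
    rw [hs k hk]
    ring
  · intro x y h
    exact add_right_cancel h

theorem csm (hLAT : S_LAT) : S_CSM := by
  obtain ⟨C0, hC0, hL, -, -⟩ := hLAT
  intro m hm
  refine ⟨4 ^ m * (3 * (Real.sqrt C0 * 2 ^ m)), by positivity, ?_⟩
  intro S hS f hf hev hs
  have h1 : ∑ x ∈ S, ∑ y ∈ S, lo x y * hi x y ^ (2 * m) * (f x * f y * f (x + y)) ≤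
      ∑ x ∈ S, ∑ y ∈ S, 4 ^ m * (GG m f x y + GG m f y x + GG m f (-(x + y)) x) :=
    Finset.sum_le_sum (fun x _ => Finset.sum_le_sum (fun y _ => step1 m hf hev x y))
  have h2 : ∑ x ∈ S, ∑ y ∈ S, 4 ^ m * (GG m f x y + GG m f y x + GG m f (-(x + y)) x) =
      4 ^ m * (∑ x ∈ S, ∑ y ∈ S, GG m f x y + ∑ x ∈ S, ∑ y ∈ S, GG m f y x +
        ∑ x ∈ S, ∑ y ∈ S, GG m f (-(x + y)) x) := by
    simp only [← Finset.mul_sum, Finset.sum_add_distrib]
  have h3 : ∑ x ∈ S, ∑ y ∈ S, GG m f x y = ∑ p ∈ S, ∑ l ∈ S, GG m f l p := Finset.sum_comm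
  have h4 := step2 m hf hs
  have h5 := step3 m hC0 hL hS.zero hf hs
  set X := ∑ p ∈ S, ∑ l ∈ S, GG m f l p with hX
  have h6 : ∑ x ∈ S, ∑ y ∈ S, lo x y * hi x y ^ (2 * m) * (f x * f y * f (x + y)) ≤ 4 ^ m * (3 * X) := by
    refine h1.trans ?_
    rw [h2, h3]
    apply mul_le_mul_of_nonneg_left _ (by positivity)
    linarith
  refine h6.trans ?_
  have e3 : ∀ k : K3, nm k ^ (3 : ℝ) = nm k ^ 3 := fun k => by
    rw [← Real.rpow_natCast]
    norm_num
  have q1 : 0 ≤ ∑ k ∈ S, nm k ^ 3 * f k ^ 2 :=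
    Finset.sum_nonneg (fun k _ => mul_nonneg (pow_nonneg (nm_nonneg k) _) (sq_nonneg _))
  have q2 : 0 ≤ ∑ k ∈ S, nm k ^ (2 * m) * f k ^ 2 :=
    Finset.sum_nonneg (fun k _ => mul_nonneg (pow_nonneg (nm_nonneg k) _) (sq_nonneg _))
  have q3 : 0 ≤ ∑ k ∈ S, nm k ^ (2 * m + 2) * f k ^ 2 :=
    Finset.sum_nonneg (fun k _ => mul_nonneg (pow_nonneg (nm_nonneg k) _) (sq_nonneg _))
  simp only [e3, Real.rpow_natCast]
  rw [mul_assoc (4 ^ m)]
  apply mul_le_mul_of_nonneg_left _ (by positivity)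
  rw [mul_assoc 3]
  apply mul_le_mul_of_nonneg_left _ (by norm_num)
  refine h5.trans (le_of_eq ?_)
  have e4 : Real.sqrt ((4 : ℝ) ^ m) = 2 ^ m := by
    rw [show (4 : ℝ) ^ m = (2 ^ m) ^ 2 by rw [← pow_mul, mul_comm, pow_mul]; norm_num]
    exact Real.sqrt_sq (by positivity)
  rw [Real.sqrt_mul (by positivity : (0 : ℝ) ≤ 4 ^ m), e4, Real.sqrt_mul (mul_nonneg q1 q2)]
  ring

end Pool.Agent.W585.HD

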